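import Mathlib

open Polynomial WithZero

namespace Pool.Agent.H.MP_2ab887_nt

variable {k : Type} [Field k]

abbrev Pl (k : Type) [Field k] := {v : Valuation (RatFunc k) (WithZero (Multiplicative ℤ)) //
  Function.Surjective v ∧
    ∀ c : k, c ≠ 0 → v (algebraMap (RatFunc k) (RatFunc k) (RatFunc.C c)) = 1}

lemma Pl.C (v : Pl k) (c : k) : v.1 (RatFunc.C c) ≤ 1 := by
  by_cases h : c = 0
  · simp [h]
  · exact (v.2.2 c h).le

lemma poly_le (v : Pl k) (h : v.1 RatFunc.X ≤ 1) (p : k[X]) :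
    v.1 (algebraMap k[X] (RatFunc k) p) ≤ 1 := by
  induction p using Polynomial.induction_on' with
  | add p q hp hq => rw [map_add]; exact (v.1.map_add _ _).trans (max_le hp hq)
  | monomial n a =>
    rw [← C_mul_X_pow_eq_monomial, map_mul, map_pow, map_mul, map_pow, RatFunc.algebraMap_C,
      RatFunc.algebraMap_X]
    exact mul_le_one' (v.C a) (pow_le_one' h n)

lemma poly_one (v : Pl k) (h : v.1 RatFunc.X < 1) (p : k[X]) (hp : ¬ X ∣ p) :
    v.1 (algebraMap k[X] (RatFunc k) p) = 1 := by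
  rw [X_dvd_iff] at hp
  have e : v.1 (RatFunc.C (p.coeff 0)) = 1 := v.2.2 _ hp
  rw [← X_mul_divX_add p, map_add, map_mul, RatFunc.algebraMap_C, RatFunc.algebraMap_X,
    Valuation.map_add_eq_of_lt_right, e]
  rw [e, map_mul]
  exact mul_lt_one_of_lt_of_le h (poly_le v h.le _)

lemma ex0 (f : RatFunc k) (hf : f ≠ 0) :
    ∃ m : ℤ, ∀ v : Pl k, v.1 RatFunc.X < 1 → v.1 f = v.1 RatFunc.X ^ m := by
  have key : ∀ p : k[X], p ≠ 0 → ∃ m : ℕ, ∀ v : Pl k, v.1 RatFunc.X < 1 →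
      v.1 (algebraMap k[X] (RatFunc k) p) = v.1 RatFunc.X ^ m := by
    intro p hp
    obtain ⟨q, h1, h2⟩ := exists_eq_pow_rootMultiplicity_mul_and_not_dvd p hp 0
    refine ⟨rootMultiplicity 0 p, fun v hv => ?_⟩
    simp only [map_zero, sub_zero] at h1 h2
    conv_lhs => rw [h1]
    rw [map_mul, map_mul, poly_one v hv q h2, map_pow, map_pow, RatFunc.algebraMap_X, mul_one]
  obtain ⟨a, ha⟩ := key _ (RatFunc.num_ne_zero hf)
  obtain ⟨b, hb⟩ := key _ (RatFunc.denom_ne_zero f)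
  refine ⟨a - b, fun v hv => ?_⟩
  rw [← RatFunc.num_div_denom f, map_div₀, ha v hv, hb v hv,
    zpow_sub₀ (by simp [RatFunc.X_ne_zero]), zpow_natCast, zpow_natCast]

lemma ex1 (f : RatFunc k) (hf : f ≠ 0) (v : Pl k) (h : 1 < v.1 RatFunc.X) :
    v.1 f = v.1 RatFunc.X ^ f.intDegree :=
  haveI : v.1.IsTrivialOn k := ⟨fun a ha => v.2.2 a ha⟩
  RatFunc.valuation_eq_valuation_X_zpow_intDegree_of_one_lt_valuation_X h hf

lemma unit (v : Pl k) (h : ∀ f ≠ 0, ∃ m : ℤ, v.1 f = v.1 RatFunc.X ^ m) :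
    v.1 RatFunc.X = exp 1 ∨ v.1 RatFunc.X = exp (-1) := by
  obtain ⟨f, hf⟩ := v.2.1 (exp 1)
  obtain ⟨m, hm⟩ := h f (by rintro rfl; simp at hf; exact exp_ne_zero hf.symm)
  have h0 : v.1 RatFunc.X ≠ 0 := by simp [RatFunc.X_ne_zero]
  rw [← exp_log h0] at hm ⊢
  rw [hf, ← exp_zsmul, exp_inj, smul_eq_mul] at hm
  rcases Int.eq_one_or_neg_one_of_mul_eq_one' hm.symm with h | h <;> simp [h.2]

lemma X_of_lt (v : Pl k) (h : v.1 RatFunc.X < 1) : v.1 RatFunc.X = exp (-1) := by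
  rcases unit v fun f hf => (ex0 f hf).imp fun m hm => hm v h with e | e
  · rw [e, ← exp_zero, exp_lt_exp] at h; omega
  · exact e

lemma X_of_gt (v : Pl k) (h : 1 < v.1 RatFunc.X) : v.1 RatFunc.X = exp 1 := by
  rcases unit v fun f hf => ⟨_, ex1 f hf v h⟩ with e | e
  · exact e
  · rw [e, ← exp_zero, exp_lt_exp] at h; omega

lemma uniq0 (v w : Pl k) (h : v.1 RatFunc.X < 1) (h' : w.1 RatFunc.X < 1) : v = w := by
  refine Subtype.ext (Valuation.ext fun f => ?_)
  by_cases hf : f = 0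
  · simp [hf]
  · obtain ⟨m, hm⟩ := ex0 f hf
    rw [hm v h, hm w h', X_of_lt v h, X_of_lt w h']

lemma uniq1 (v w : Pl k) (h : 1 < v.1 RatFunc.X) (h' : 1 < w.1 RatFunc.X) : v = w := by
  refine Subtype.ext (Valuation.ext fun f => ?_)
  by_cases hf : f = 0
  · simp [hf]
  · rw [ex1 f hf v h, ex1 f hf w h', X_of_gt v h, X_of_gt w h']

lemma surj (v : Valuation (RatFunc k) (WithZero (Multiplicative ℤ))) (s : ℤ) (hs : s * s = 1)
    (h : v RatFunc.X = exp s) : Function.Surjective v := by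
  intro y
  by_cases hy : y = 0
  · exact ⟨0, by simp [hy]⟩
  · refine ⟨RatFunc.X ^ (log y * s), ?_⟩
    rw [map_zpow₀, h, ← exp_zsmul, smul_eq_mul, mul_assoc, hs, mul_one, exp_log hy]

lemma ex_v0 : ∃ v : Pl k, v.1 RatFunc.X < 1 := by
  refine ⟨⟨(idealX k).valuation (RatFunc k), surj _ (-1) (by norm_num) (valuation_X_eq_neg_one k),
    fun c hc => ?_⟩, ?_⟩
  · haveI := Valuation.IsTrivialOn.of_le_one (k := k) ((idealX k).valuation (RatFunc k))
      fun x => (idealX k).valuation_le_one (K := RatFunc k) (C x)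
    exact Valuation.IsTrivialOn.eq_one c hc
  · change (idealX k).valuation (RatFunc k) RatFunc.X < 1
    rw [valuation_X_eq_neg_one, ← exp_zero, exp_lt_exp]; omega

lemma ex_v1 : ∃ v : Pl k, 1 < v.1 RatFunc.X := by
  classical
  refine ⟨⟨RatFunc.inftyValuation k, surj _ 1 (by norm_num) (RatFunc.inftyValuation.X k),
    fun c hc => RatFunc.inftyValuation.C k hc⟩, ?_⟩
  change 1 < RatFunc.inftyValuation k RatFunc.X
  rw [RatFunc.inftyValuation.X, ← exp_zero, exp_lt_exp]; omega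

lemma sinf (x : Fin 2 → WithZero (Multiplicative ℤ)) (M : ℤ) (h : max (x 0) (x 1) = exp M) :
    sInf {m : ℤ | ∀ i, x i ≤ WithZero.coe (Multiplicative.ofAdd m)} = M := by
  have : {m : ℤ | ∀ i, x i ≤ WithZero.coe (Multiplicative.ofAdd m)} = Set.Ici M := by
    ext m
    simp only [Set.mem_ofPred_eq, Fin.forall_fin_two, ← max_le_iff, h, Set.mem_Ici]
    exact exp_le_exp
  rw [this, csInf_Ici]

lemma height (a b : k[X]) (hc : IsCoprime a b) (hb : b ≠ 0) (hd : b.natDegree < a.natDegree)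
    (e : ℕ) (z : Fin 2 → RatFunc k) (h0 : z 0 = RatFunc.X ^ e * algebraMap k[X] (RatFunc k) a)
    (h1 : z 1 = RatFunc.X ^ e * algebraMap k[X] (RatFunc k) b) :
    ∑ᶠ v : Pl k, ((sInf {m : ℤ | ∀ i, v.1 (z i) ≤ WithZero.coe (Multiplicative.ofAdd m)} : ℤ) : ℝ)
      = a.natDegree := by
  classical
  obtain ⟨v0, hv0⟩ := ex_v0 (k := k)
  obtain ⟨v1, hv1⟩ := ex_v1 (k := k)
  have ha : a ≠ 0 := by rintro rfl; simp at hd
  have c1 : ∀ v : Pl k, v.1 RatFunc.X ≤ 1 → max (v.1 (z 0)) (v.1 (z 1)) = v.1 RatFunc.X ^ e := by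
    intro v hv
    rw [h0, h1, map_mul, map_mul, map_pow, ← mul_max]
    suffices max (v.1 (algebraMap k[X] (RatFunc k) a)) (v.1 (algebraMap k[X] (RatFunc k) b)) = 1 by
      rw [this, mul_one]
    refine le_antisymm (max_le (poly_le v hv a) (poly_le v hv b)) ?_
    obtain ⟨u, w, h⟩ := hc
    have := v.1.map_add (algebraMap k[X] (RatFunc k) (u * a)) (algebraMap k[X] (RatFunc k) (w * b))
    rw [← map_add, h, map_one, map_one, map_mul, map_mul, map_mul, map_mul] at this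
    exact this.trans (max_le_max (mul_le_of_le_one_left' (poly_le v hv u))
      (mul_le_of_le_one_left' (poly_le v hv w)))
  have g0 := sinf (fun i => v0.1 (z i)) (-e) (by
    rw [c1 v0 hv0.le, X_of_lt v0 hv0, ← exp_nsmul]; simp)
  have g1 := sinf (fun i => v1.1 (z i)) (e + a.natDegree) (by
    rw [h0, h1, map_mul, map_mul, map_pow, ← mul_max, ex1 (algebraMap _ _ a) (by simpa) v1 hv1,
      ex1 (algebraMap _ _ b) (by simpa) v1 hv1, X_of_gt v1 hv1, RatFunc.intDegree_polynomial,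
      RatFunc.intDegree_polynomial, ← exp_zsmul, ← exp_zsmul, ← exp_nsmul,
      max_eq_left (exp_le_exp.2 (by simp; omega)), ← exp_add]
    simp)
  have hne : v0 ≠ v1 := by rintro rfl; exact lt_asymm hv0 hv1
  rw [finsum_eq_sum_of_support_subset (s := {v0, v1}), Finset.sum_pair hne, g0, g1]
  · push_cast; ring
  · intro v hv
    by_contra c
    simp only [Finset.coe_insert, Finset.coe_singleton, Set.mem_insert_iff, Set.mem_singleton_iff,
      not_or] at c
    have : v.1 RatFunc.X = 1 := by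
      rcases lt_trichotomy (v.1 RatFunc.X) 1 with h | h | h
      exacts [(c.1 (uniq0 _ _ h hv0)).elim, h, (c.2 (uniq1 _ _ h hv1)).elim]
    refine hv ?_
    have := sinf (fun i => v.1 (z i)) 0 (by rw [c1 v this.le, this]; simp)
    simp only [this, Int.cast_zero]

end Pool.Agent.H.MP_2ab887_nt
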